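import Pool.Agent.W117.GS.Stm

/-!
# Laplacians of `v₀` and `V` (project GS, part LV)
-/

set_option autoImplicit false

open scoped ContDiff
open Filter Topology

namespace Pool.Agent.W597.GS.LV

open Pool.Agent.W117.GS
open Pool.Agent.Helper676.CS

lemma dd_lin {ι : Type} (S : Finset ι) (c : ι → ℝ) (a : ℝ) (f : ι → ℝ × ℝ → ℝ)
    (hf : ∀ p, ContDiff ℝ ∞ (f p)) (e : ℝ × ℝ) :
    dd e (fun z => a - ∑ p ∈ S, c p * f p z) = fun z => 0 - ∑ p ∈ S, c p * dd e (f p) z := by
  funext z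
  unfold dd
  have hd : ∀ p ∈ S, HasFDerivAt (fun y => c p * f p y) (c p • fderiv ℝ (f p) z) z := by
    intro p _
    exact (((hf p).differentiable (by simp)) z).hasFDerivAt.const_mul (c p)
  have h1 := (HasFDerivAt.fun_sum hd).const_sub a
  rw [h1.fderiv]
  simp

lemma lap_lin {ι : Type} (S : Finset ι) (c : ι → ℝ) (a : ℝ) (f : ι → ℝ × ℝ → ℝ)
    (hf : ∀ p, ContDiff ℝ ∞ (f p)) (z : ℝ × ℝ) :
    lap (fun z => a - ∑ p ∈ S, c p * f p z) z = -∑ p ∈ S, c p * lap (f p) z := by
  have hf1 : ∀ e p, ContDiff ℝ ∞ (dd e (f p)) := fun e p => contDiff_dd_infty (hf p) e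
  unfold lap
  rw [dx_eq, dy_eq, dd_lin S c a f hf, dd_lin S c a f hf]
  have e1 := dd_lin S (fun p => c p) 0 (fun p => dd (1, 0) (f p)) (hf1 _) (1, 0)
  have e2 := dd_lin S (fun p => c p) 0 (fun p => dd (0, 1) (f p)) (hf1 _) (0, 1)
  rw [e1, e2]
  simp only [mul_add, Finset.sum_add_distrib]
  ring

lemma sp_nonneg (p z : ℝ × ℝ) : 0 ≤ sp p z := by
  unfold sp; positivity

lemma contDiff_sp (p : ℝ × ℝ) : ContDiff ℝ ∞ (sp p) := by
  unfold sp; fun_prop

lemma lap_sp {U U' U'' : ℝ → ℝ} {p z : ℝ × ℝ} (h : ∀ᶠ s in 𝓝 (sp p z), HasDerivAt U (U' s) s)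
    (h' : HasDerivAt U' (U'' (sp p z)) (sp p z)) :
    lap (fun y => U (sp p y)) z = 4 * sp p z * U'' (sp p z) + 4 * U' (sp p z) := by
  have e : (fun y => U (sp p y)) =
      fun y => (fun y : ℝ × ℝ => U (y.1 ^ 2 + y.2 ^ 2)) (y - p) := by
    funext y; simp [sp]
  rw [e, lap_translate (f := fun y : ℝ × ℝ => U (y.1 ^ 2 + y.2 ^ 2)) p]
  exact lap_comp_sq (z := z - p) (U := U) (U' := U') (U'' := U'') h h'

/-- the functions `(1/M) log (1 + s^M)` -/
lemma lap_logM (M : ℕ) (hM : 1 ≤ M) (p z : ℝ × ℝ) :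
    lap (fun y => 1 / M * Real.log (1 + sp p y ^ M)) z =
      4 * M * sp p z ^ (M - 1) / (1 + sp p z ^ M) ^ 2 := by
  have hM0 : (M : ℝ) ≠ 0 := by positivity
  have hs := sp_nonneg p z
  have hpos : ∀ᶠ s in 𝓝 (sp p z), 0 < 1 + s ^ M := by
    have hc : ContinuousAt (fun s : ℝ => 1 + s ^ M) (sp p z) := by fun_prop
    exact hc.eventually (lt_mem_nhds (by positivity))
  have h0 : 0 < 1 + sp p z ^ M := by positivity
  have h := lap_sp (p := p) (z := z) (U := fun s => 1 / M * Real.log (1 + s ^ M))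
    (U' := fun s => s ^ (M - 1) / (1 + s ^ M))
    (U'' := fun s => (((M - 1 : ℕ) : ℝ) * s ^ (M - 1 - 1) * (1 + s ^ M) -
      s ^ (M - 1) * (M * s ^ (M - 1))) / (1 + s ^ M) ^ 2) ?_ ?_
  · rw [h]
    generalize sp p z = s at hs h0
    have key : s * (((M - 1 : ℕ) : ℝ) * s ^ (M - 1 - 1)) = ((M : ℝ) - 1) * s ^ (M - 1) := by
      obtain ⟨m, rfl⟩ : ∃ m, M = m + 1 := ⟨M - 1, by omega⟩
      rcases m with _ | m
      · simp
      · simp only [Nat.add_sub_cancel]
        push_cast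
        ring
    have key2 : s ^ M = s * s ^ (M - 1) := by
      rw [← pow_succ', Nat.sub_add_cancel hM]
    rw [eq_div_iff (by positivity)]
    have : (4 * s * ((((M - 1 : ℕ) : ℝ) * s ^ (M - 1 - 1) * (1 + s ^ M) -
        s ^ (M - 1) * (M * s ^ (M - 1))) / (1 + s ^ M) ^ 2) + 4 * (s ^ (M - 1) / (1 + s ^ M))) *
        (1 + s ^ M) ^ 2 = 4 * (s * (((M - 1 : ℕ) : ℝ) * s ^ (M - 1 - 1))) * (1 + s ^ M) -
        4 * M * (s * s ^ (M - 1)) * s ^ (M - 1) + 4 * s ^ (M - 1) * (1 + s ^ M) := by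
      have h1 : (1 + s ^ M) ≠ 0 := h0.ne'
      field_simp
    rw [this, key, ← key2]
    ring
  · filter_upwards [hpos] with s hs
    have h1 : HasDerivAt (fun s : ℝ => 1 + s ^ M) (M * s ^ (M - 1)) s :=
      (hasDerivAt_pow M s).const_add 1
    have h2 := (h1.log hs.ne').const_mul (1 / (M : ℝ))
    refine h2.congr_deriv ?_
    field_simp
  · have h1 : HasDerivAt (fun s : ℝ => 1 + s ^ M) (M * sp p z ^ (M - 1)) (sp p z) :=
      (hasDerivAt_pow M _).const_add 1
    have h2 := (hasDerivAt_pow (M - 1) (sp p z)).div h1 h0.ne'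
    exact h2

/-- the functions `log (μ + s)` -/
lemma lap_logmu (μ : ℝ) (hμ : 0 < μ) (p z : ℝ × ℝ) :
    lap (fun y => Real.log (μ + sp p y)) z = 4 * μ / (μ + sp p z) ^ 2 := by
  have hs := sp_nonneg p z
  have h0 : 0 < μ + sp p z := by positivity
  have hpos : ∀ᶠ s in 𝓝 (sp p z), 0 < μ + s := by
    have hc : ContinuousAt (fun s : ℝ => μ + s) (sp p z) := by fun_prop
    exact hc.eventually (lt_mem_nhds h0)
  have h := lap_sp (p := p) (z := z) (U := fun s => Real.log (μ + s))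
    (U' := fun s => (μ + s)⁻¹) (U'' := fun s => -1 / (μ + s) ^ 2) ?_ ?_
  · rw [h]
    field_simp
    ring
  · filter_upwards [hpos] with s hs
    have h1 : HasDerivAt (fun s : ℝ => μ + s) 1 s := (hasDerivAt_id s).const_add μ
    refine (h1.log hs.ne').congr_deriv ?_
    field_simp
  · have h1 : HasDerivAt (fun s : ℝ => μ + s) 1 (sp p z) := (hasDerivAt_id _).const_add μ
    exact h1.inv h0.ne'

theorem main : PropLV ∧ PropLW := by
  constructor
  · intro S n M hM
    have hsm : ∀ p : ℝ × ℝ, ContDiff ℝ ∞ (fun z => 1 / (M : ℝ) * Real.log (1 + sp p z ^ M)) := by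
      intro p
      refine contDiff_const.mul (ContDiff.log ?_ ?_)
      · exact contDiff_const.add ((contDiff_sp p).pow M)
      · intro z
        have := sp_nonneg p z
        positivity
    have e : v0 S n M = fun z => 0 - ∑ p ∈ S, (n p : ℝ) *
        (fun z => 1 / (M : ℝ) * Real.log (1 + sp p z ^ M)) z := by
      funext z; unfold v0; simp
    constructor
    · rw [e]
      refine contDiff_const.sub (ContDiff.sum fun p _ => contDiff_const.mul (hsm p))
    · intro z
      rw [e, lap_lin S (fun p => (n p : ℝ)) 0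
        (fun p z => 1 / (M : ℝ) * Real.log (1 + sp p z ^ M)) hsm z]
      unfold Pool.Agent.W117.GS.kk
      congr 1
      refine Finset.sum_congr rfl fun p _ => ?_
      rw [lap_logM M hM p z]
  · intro S n μ hμ
    have hsm : ∀ p : ℝ × ℝ, ContDiff ℝ ∞ (fun z => Real.log (μ + sp p z)) := by
      intro p
      refine ContDiff.log ?_ ?_
      · exact contDiff_const.add (contDiff_sp p)
      · intro z
        have := sp_nonneg p z
        positivity
    constructor
    · unfold VV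
      exact contDiff_const.sub (ContDiff.sum fun p _ => contDiff_const.mul (hsm p))
    · intro z
      have e : VV S n μ = fun z => Real.log 2 - ∑ p ∈ S, (n p : ℝ) *
          (fun z => Real.log (μ + sp p z)) z := rfl
      rw [e, lap_lin S (fun p => (n p : ℝ)) (Real.log 2)
        (fun p z => Real.log (μ + sp p z)) hsm z, neg_neg]
      refine Finset.sum_congr rfl fun p _ => ?_
      rw [lap_logmu μ hμ p z]

end Pool.Agent.W597.GS.LV
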